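import Mathlib
import Pool.Agent.P.MP_4cdbfb_co.Final

namespace Pool.Agent.Results.MP_4cdbfb_co.Bounded

/-- For every `n` there are finite graphs of chromatic number at least `n` whose categorical
product can be coloured with `16` colours. -/
theorem result (n : ℕ) :
    ∃ (V W : Type) (_ : Finite V) (_ : Finite W) (G : SimpleGraph V) (H : SimpleGraph W),
      (n : ℕ∞) ≤ G.chromaticNumber ∧ (n : ℕ∞) ≤ H.chromaticNumber ∧
      (SimpleGraph.comap (Prod.fst : V × W → V) G ⊓
        SimpleGraph.comap (Prod.snd : V × W → W) H).Colorable 16 :=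
  Pool.Agent.P.MP_4cdbfb_co.Z3.bounded n

end Pool.Agent.Results.MP_4cdbfb_co.Bounded
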